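import Pool.Agent.PVD.StmtsG

/-! Squad PVD, row CVR: the prism over the projection of a polytope. -/

set_option autoImplicit false

open MeasureTheory Metric Set Filter Topology

namespace PVD.H25

open PV PV3

theorem proj_add {n : ℕ} {u : E n} (hu : ‖u‖ = 1) (x : E n) (t : ℝ) :
    proj u (x + t • u) = proj u x := by
  have h1 : inner ℝ u u = (1 : ℝ) := by
    rw [real_inner_self_eq_norm_sq, hu, one_pow]
  unfold proj
  rw [inner_add_left, real_inner_smul_left, h1, mul_one, add_smul]
  abel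

theorem inner_proj {n : ℕ} {u : E n} (hu : ‖u‖ = 1) (x : E n) : inner ℝ (proj u x) u = (0 : ℝ) := by
  have h1 : inner ℝ u u = (1 : ℝ) := by
    rw [real_inner_self_eq_norm_sq, hu, one_pow]
  unfold proj
  rw [inner_sub_left, real_inner_smul_left, h1, mul_one, sub_self]

theorem closed_Pl {n : ℕ} (U : Finset (E n)) (c : E n → ℝ) : IsClosed (Pl U c) := by
  have h1 : Pl U c = ⋂ w ∈ U, {x | inner ℝ x w ≤ c w} := by
    ext x
    simp only [Pl, Set.mem_ofPred_eq, Set.mem_iInter]
  rw [h1]
  exact isClosed_biInter fun w _ => isClosed_le (continuous_id.inner continuous_const)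
    continuous_const

theorem compact_Pl {n : ℕ} {U : Finset (E n)} (hB : Bd U) (c : E n → ℝ) : IsCompact (Pl U c) :=
  isCompact_of_isClosed_isBounded (closed_Pl U c) (hB c)

theorem compact_Fc {n : ℕ} {U : Finset (E n)} (hB : Bd U) (c : E n → ℝ) (w : E n) :
    IsCompact (Fc U c w) :=
  (compact_Pl hB c).inter_right (isClosed_eq (continuous_id.inner continuous_const)
    continuous_const)

theorem continuous_proj {n : ℕ} (u : E n) : Continuous (proj u) := by
  unfold proj
  fun_prop

theorem compact_Pr {n : ℕ} (u : E n) {S : Set (E n)} (hS : IsCompact S) : IsCompact (Pr u S) := by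
  have h1 : Pr u S = (fun p : E n × ℝ => proj u p.1 + p.2 • u) '' (S ×ˢ Icc (0 : ℝ) 1) := by
    ext y
    constructor
    · rintro ⟨x, hx, s, hs, rfl⟩
      exact ⟨(x, s), ⟨hx, hs⟩, rfl⟩
    · rintro ⟨⟨x, s⟩, ⟨hx, hs⟩, rfl⟩
      exact ⟨x, hx, s, hs, rfl⟩
  rw [h1]
  refine (hS.prod isCompact_Icc).image ?_
  exact ((continuous_proj u).comp continuous_fst).add (continuous_snd.smul continuous_const)

/-- the upper end of the chord through a point of a polytope -/
theorem upper {n : ℕ} {U : Finset (E n)} (hB : Bd U) {c : E n → ℝ} {u : E n} (hu : ‖u‖ = 1)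
    {x : E n} (hx : x ∈ Pl U c) :
    ∃ t : ℝ, ∃ w ∈ U, 0 < inner ℝ u w ∧ x + t • u ∈ Fc U c w := by
  obtain ⟨Z, hZ⟩ : ∃ Z : Set ℝ, Z = {t | x + t • u ∈ Pl U c} := ⟨_, rfl⟩
  have hZ0 : (0 : ℝ) ∈ Z := by
    rw [hZ]
    change x + (0 : ℝ) • u ∈ Pl U c
    rwa [zero_smul, add_zero]
  have hZc : IsClosed Z := by
    rw [hZ]
    exact (closed_Pl U c).preimage (by fun_prop)
  have hZb : BddAbove Z := by
    obtain ⟨C, hC⟩ := (hB c).exists_norm_le
    refine ⟨C + ‖x‖, fun t ht => ?_⟩
    rw [hZ] at ht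
    have h1 := hC _ ht
    have h2 : ‖t • u‖ ≤ ‖x + t • u‖ + ‖x‖ := by
      have h3 : t • u = (x + t • u) - x := by abel
      conv_lhs => rw [h3]
      exact norm_sub_le _ _
    rw [norm_smul, hu, mul_one, Real.norm_eq_abs] at h2
    have h4 := le_abs_self t
    linarith
  have hmem := hZc.csSup_mem ⟨0, hZ0⟩ hZb
  obtain ⟨t, ht⟩ : ∃ t, t = sSup Z := ⟨_, rfl⟩
  rw [← ht] at hmem
  have hx' : x + t • u ∈ Pl U c := by rw [hZ] at hmem; exact hmem
  by_contra hcon
  push Not at hcon
  have h1 : ∀ w ∈ U, ∀ᶠ ε in 𝓝[>] (0 : ℝ), inner ℝ (x + (t + ε) • u) w ≤ c w := by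
    intro w hw
    have h2 : ∀ ε : ℝ, inner ℝ (x + (t + ε) • u) w = inner ℝ (x + t • u) w + ε * inner ℝ u w := by
      intro ε
      rw [inner_add_left, inner_add_left, real_inner_smul_left, real_inner_smul_left]
      ring
    have h3 := hx' w hw
    by_cases hw1 : 0 < inner ℝ u w
    · have h4 : inner ℝ (x + t • u) w < c w := by
        refine lt_of_le_of_ne h3 fun h => ?_
        exact hcon t w hw hw1 ⟨hx', h⟩
      have h5 : Tendsto (fun ε : ℝ => inner ℝ (x + (t + ε) • u) w) (𝓝 0)
          (𝓝 (inner ℝ (x + t • u) w)) := by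
        have h6 : Continuous fun ε : ℝ => inner ℝ (x + (t + ε) • u) w := by fun_prop
        have h7 := h6.tendsto 0
        rw [add_zero] at h7
        exact h7
      exact ((h5.eventually (gt_mem_nhds h4)).mono fun ε hε => le_of_lt hε).filter_mono
        nhdsWithin_le_nhds
    · filter_upwards [self_mem_nhdsWithin] with ε hε
      rw [h2]
      have h4 : ε * inner ℝ u w ≤ 0 := mul_nonpos_of_nonneg_of_nonpos (le_of_lt hε) (not_lt.1 hw1)
      linarith
  have h2 := (Filter.eventually_all_finset U).2 h1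
  obtain ⟨ε, hε, hε0⟩ := (h2.and self_mem_nhdsWithin).exists
  have h3 : t + ε ∈ Z := by
    rw [hZ]
    exact hε
  have h4 := le_csSup hZb h3
  rw [← ht] at h4
  have h5 : (0 : ℝ) < ε := hε0
  linarith

theorem cvr (flt : FLTStmt) (an : ANStmt) : CVRStmt := by
  intro n U c u hU hB hu
  constructor
  · ext y
    constructor
    · rintro ⟨x, hx, s, hs, rfl⟩
      obtain ⟨t, w, hw, hw0, hxt⟩ := upper hB hu hx
      refine Set.mem_biUnion (show w ∈ {w | w ∈ U ∧ 0 < inner ℝ u w} from ⟨hw, hw0⟩) ?_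
      exact ⟨x + t • u, hxt, s, hs, by rw [proj_add hu]⟩
    · intro hy
      obtain ⟨w, hw, x, hx, s, hs, h⟩ := Set.mem_iUnion₂.1 hy
      exact ⟨x, hx.1, s, hs, h⟩
  · intro w hw w' hw' hne h0 h0'
    obtain ⟨S, hS⟩ : ∃ S, S = Fc U c w ∩ Fc U c w' := ⟨_, rfl⟩
    have hSc : IsCompact S := by
      rw [hS]
      exact (compact_Fc hB c w).inter (compact_Fc hB c w')
    have h1 : Pr u (Fc U c w) ∩ Pr u (Fc U c w') ⊆ Pr u S := by
      rintro y ⟨⟨x, hx, s, hs, hy⟩, ⟨x', hx', s', hs', hy'⟩⟩
      have huu : inner ℝ u u = (1 : ℝ) := by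
        rw [real_inner_self_eq_norm_sq, hu, one_pow]
      have e1 : inner ℝ y u = s := by
        rw [hy, inner_add_left, inner_proj hu, real_inner_smul_left, huu, mul_one, zero_add]
      have e2 : inner ℝ y u = s' := by
        rw [hy', inner_add_left, inner_proj hu, real_inner_smul_left, huu, mul_one, zero_add]
      have e3 : s = s' := e1.symm.trans e2
      rw [hy, ← e3] at hy'
      have e4 : proj u x = proj u x' := add_right_cancel hy'
      have e5 : x' = x + (inner ℝ x' u - inner ℝ x u) • u := by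
        unfold proj at e4
        calc x' = (x' - inner ℝ x' u • u) + inner ℝ x' u • u := by abel
          _ = (x - inner ℝ x u • u) + inner ℝ x' u • u := by rw [e4]
          _ = x + (inner ℝ x' u - inner ℝ x u) • u := by rw [sub_smul]; abel
      obtain ⟨τ, hτ⟩ : ∃ τ, τ = inner ℝ x' u - inner ℝ x u := ⟨_, rfl⟩
      rw [← hτ] at e5
      have e6 := hx'.1 w hw
      rw [e5, inner_add_left, real_inner_smul_left, hx.2] at e6
      have e7 : τ ≤ 0 := by
        by_contra h
        have := mul_pos (not_le.1 h) h0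
        linarith
      have e8 := hx.1 w' hw'
      have e9 := hx'.2
      rw [e5, inner_add_left, real_inner_smul_left] at e9
      have e10 : 0 ≤ τ := by
        by_contra h
        have := mul_neg_of_neg_of_pos (not_le.1 h) h0'
        linarith
      have e11 : τ = 0 := le_antisymm e7 e10
      rw [e11, zero_smul, add_zero] at e5
      refine ⟨x, ?_, s, hs, hy⟩
      rw [hS]
      exact ⟨hx, e5 ▸ hx'⟩
    have h2 : ar w S = 0 := by
      refine (an n w (hU w hw)).1 S w' (c w) (c w') (hU w' hw') (Ne.symm hne) ?_ ?_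
      · intro h
        rw [h, inner_neg_right] at h0'
        linarith
      · intro x hx
        rw [hS] at hx
        exact ⟨hx.1.2, hx.2.2⟩
    have h3 : vl (Pr u S) = 0 := by
      rw [(flt n u w (c w) S hu (hU w hw) h0 hSc (fun x hx => by
        rw [hS] at hx
        exact hx.1.2)).1, h2, mul_zero]
    have h4 : volume (Pr u S) = 0 := by
      rcases (ENNReal.toReal_eq_zero_iff _).1 h3 with h | h
      · exact h
      · exact absurd h (compact_Pr u hSc).measure_lt_top.ne
    exact measure_mono_null h1 h4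

end PVD.H25
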