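import Pool.Agent.Helper25_PVD.SYM

/-! Squad PVD, row MOM: the moment of the prism over a facet is a multiple of the normal. -/

set_option autoImplicit false

open MeasureTheory Metric Set Filter Topology

namespace PVD.H25

open PV PV3

theorem inv_rel {n : ℕ} {φ : E n →ₗᵢ[ℝ] E (n + 1)} {σ : Equiv.Perm (Fin (n + 1))}
    {T : E n ≃ₗᵢ[ℝ] E n} (hT : ∀ x i, φ (T x) (σ i) = φ x i) :
    ∀ x i, φ (T.symm x) (σ.symm i) = φ x i := by
  intro x i
  have h := hT (T.symm x) (σ.symm i)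
  rw [LinearIsometryEquiv.apply_symm_apply, Equiv.apply_symm_apply] at h
  exact h.symm

/-- the polytope is invariant -/
theorem map_PP {n : ℕ} {φ : E n →ₗᵢ[ℝ] E (n + 1)} {σ : Equiv.Perm (Fin (n + 1))}
    {T : E n ≃ₗᵢ[ℝ] E n} (hT : ∀ x i, φ (T x) (σ i) = φ x i) (R : Finset ℕ) (H : ℕ → ℝ) {x : E n}
    (hx : x ∈ PP φ R H) : T x ∈ PP φ R H := by
  intro r hr A hA
  have h1 := hx r hr (A.map σ.symm.toEmbedding) (by rw [Finset.card_map, hA])
  rw [Finset.sum_map] at h1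
  refine le_of_eq_of_le (Finset.sum_congr rfl fun i _ => ?_) h1
  have h2 := inv_rel hT (T x) i
  rw [LinearIsometryEquiv.symm_apply_apply] at h2
  exact h2.symm

theorem mom (nrm : NRMStmt) (plc : PLCStmt) : MOMStmt := by
  intro n φ R H hφ hR A hA
  have hr := hR.2 _ hA
  have hA0 : 0 < A.card := hr.1
  have hA1 : A.card < n + 1 := Nat.lt_succ_of_le hr.2
  obtain ⟨-, -, hplc⟩ := plc n φ R hφ hR
  obtain ⟨hPl, -, -⟩ := hplc H
  refine fxv nrm n φ hφ A hA0 hA1 _ fun σ T hT hσ => ?_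
  have hTw : T (wn φ A) = wn φ A := by rw [map_wn nrm hφ hT, hσ]
  have hTw' : T.symm (wn φ A) = wn φ A := by
    rw [LinearIsometryEquiv.symm_apply_eq, hTw]
  obtain ⟨F, hF⟩ : ∃ F, F = Fc (UU φ R) (cH φ R H) (wn φ A) := ⟨_, rfl⟩
  have hF1 : ∀ x ∈ F, T x ∈ F := by
    intro x hx
    rw [hF] at hx ⊢
    refine ⟨?_, ?_⟩
    · rw [hPl]
      exact map_PP hT R H (hPl ▸ hx.1)
    · conv_lhs => rw [← hTw]
      rw [LinearIsometryEquiv.inner_map_map]
      exact hx.2
  have hF2 : ∀ x ∈ F, T.symm x ∈ F := by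
    intro x hx
    rw [hF] at hx ⊢
    refine ⟨?_, ?_⟩
    · rw [hPl]
      exact map_PP (inv_rel hT) R H (hPl ▸ hx.1)
    · conv_lhs => rw [← hTw']
      rw [LinearIsometryEquiv.inner_map_map]
      exact hx.2
  rw [← hF]
  have hpre : T ⁻¹' (Sw (wn φ A) F 1) = Sw (wn φ A) F 1 := by
    ext y
    constructor
    · rintro ⟨x, hx, s, hs, h⟩
      refine ⟨T.symm x, hF2 x hx, s, hs, ?_⟩
      have h1 : y = T.symm (T y) := (LinearIsometryEquiv.symm_apply_apply T y).symm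
      rw [h1, h, map_add, map_smul, hTw']
    · rintro ⟨x, hx, s, hs, h⟩
      refine ⟨T x, hF1 x hx, s, hs, ?_⟩
      rw [h, map_add, map_smul, hTw]
  have h1 : ∫ y in T ⁻¹' (Sw (wn φ A) F 1), T y = ∫ y in Sw (wn φ A) F 1, y :=
    (LinearIsometryEquiv.measurePreserving T).setIntegral_preimage_emb
      T.toHomeomorph.measurableEmbedding (fun y => y) _
  rw [hpre] at h1
  have h2 := T.toContinuousLinearEquiv.integral_comp_comm
    (μ := volume.restrict (Sw (wn φ A) F 1)) (fun y : E n => y)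
  exact h2.symm.trans h1

end PVD.H25
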