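import Pool.Agent.PVD.StmtsL

/-! MP_e25c73_gt, block L, row REM: bounds of `g - f`. -/

set_option autoImplicit false
open MeasureTheory

namespace Pool.Agent.PVD.L.H25

open Pool.Agent.PVD.L

theorem rem (wbd : WbdStmt) : RemStmt := by
  intro e he0 he1
  refine ⟨200 / e, ?_, ?_⟩
  · rw [le_div_iff₀ he0]; linarith
  intro q sg y u1 u2 v hP hC
  obtain ⟨-, -, -, -, -, -, -, w1, w2, -⟩ := wbd e y he0 he1 hP.y0 hP.y1
  have hT : 0 < TT q := lt_of_lt_of_le hP.q0 hP.qT
  have hb1 := beta_lower he0 he1 hP.y0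
  have hb2 := beta_upper he0 he1 hP.y1
  have hw : 0 < ww e y := by linarith
  have hs0 : 0 < ss e q sg y := by
    unfold ss
    have := hP.s0
    positivity
  have hs1 : ss e q sg y ≤ 192 / e * TT q := by
    unfold ss
    have h1 : sg * TT q ≤ 3 / 2 * TT q := mul_le_mul_of_nonneg_right hP.s1 hT.le
    have h2 : sg * TT q * ww e y ≤ 3 / 2 * TT q * (128 / e) :=
      mul_le_mul h1 w2 hw.le (by positivity)
    calc sg * TT q * ww e y ≤ 3 / 2 * TT q * (128 / e) := h2
      _ = 192 / e * TT q := by ring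
  have hTe : 400 * TT q ≤ e := by
    have h1 : 200 / e * TT q = 200 * TT q / e := by ring
    rw [h1, div_le_iff₀ he0] at hC
    linarith
  have hq : q ≤ e / 400 := by
    have := hP.qT
    linarith
  have hs2 : 2 * ss e q sg y < beta e y := by
    have h1 : 2 * (192 / e * TT q) < 1 / 128 / e := by
      have h2 : 2 * (192 / e * TT q) = 384 * TT q / e := by ring
      rw [h2]
      apply div_lt_div_of_pos_right _ he0
      linarith
    linarith
  have hs3 : ss e q sg y ≤ 200 / e * TT q := by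
    have h1 : 192 / e * TT q ≤ 200 / e * TT q :=
      mul_le_mul_of_nonneg_right (div_le_div_of_nonneg_right (by norm_num) he0.le) hT.le
    linarith
  refine ⟨hs0, hs2, hs3, ?_⟩
  intro t ht0 ht1
  have hA := bas_adm he0 he1 hP.y0 hP.y1
  obtain ⟨f, hf⟩ : ∃ f, f = fm e (bas e y) t := ⟨_, rfl⟩
  have hft : t ≤ f := by rw [hf]; exact hA.lo t ht0 ht1
  have hf0 : 0 ≤ f := ht0.trans hft
  have hc2 := cl_nonneg he0 (by linarith : e < 1) ht0 ht1 2
  have hc2' := cl_le he0 (by linarith : e < 1) ht0 2 (by decide)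
  have hc3 := cl_nonneg he0 (by linarith : e < 1) ht0 ht1 3
  have hc3' := cl_le he0 (by linarith : e < 1) ht0 3 (by decide)
  have hbas : f = t + beta e y * cl e 2 t := by rw [hf, fm_bas, cl_two]
  have hE1 : |Real.exp u1 - 1| ≤ 2 * q := by
    have h1 := Real.abs_exp_sub_one_le (x := u1) (by have := hP.u1b; linarith)
    have := hP.u1b
    linarith
  have hE2 : |Real.exp u2 - 1| ≤ 2 * q := by
    have h1 := Real.abs_exp_sub_one_le (x := u2) (by have := hP.u2b; linarith)
    have := hP.u2b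
    linarith
  have hq0 := hP.q0
  obtain ⟨E1, hE1d⟩ : ∃ E1, E1 = Real.exp u1 - 1 := ⟨_, rfl⟩
  obtain ⟨E2, hE2d⟩ : ∃ E2, E2 = Real.exp u2 - 1 := ⟨_, rfl⟩
  rw [← hE1d] at hE1
  rw [← hE2d] at hE2
  obtain ⟨s, hs⟩ : ∃ s, s = ss e q sg y := ⟨_, rfl⟩
  obtain ⟨b, hb⟩ : ∃ b, b = beta e y := ⟨_, rfl⟩
  rw [← hs] at hs0 hs1 hs2 hs3 ⊢
  rw [← hb] at hb1 hb2 hbas hs2
  -- the remainder
  have hrem : fm e (nuL e q sg y u1 u2) t - f - s * (cl e 3 t - cl e 2 t) =
      (q + (1 + q) * E1) * t + (b - s) * E2 * cl e 2 t := by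
    rw [fm_nuL, hbas, ← hs, ← hb, hE1d, hE2d]
    ring
  have h1 : |q + (1 + q) * E1| ≤ 4 * q := by
    rw [abs_le] at hE1 ⊢
    constructor
    · nlinarith
    · nlinarith
  have hbs : 0 ≤ b - s := by linarith
  have h2 : |(b - s) * E2| ≤ 2 * q / e := by
    rw [abs_mul, abs_of_nonneg hbs]
    have h3 : b - s ≤ 1 / e := by linarith
    calc (b - s) * |E2| ≤ 1 / e * (2 * q) :=
          mul_le_mul h3 hE2 (abs_nonneg _) (by positivity)
      _ = 2 * q / e := by ring
  have h3 : |(q + (1 + q) * E1) * t + (b - s) * E2 * cl e 2 t| ≤ (4 * q + 2 * q / e) * f := by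
    calc |(q + (1 + q) * E1) * t + (b - s) * E2 * cl e 2 t|
        ≤ |(q + (1 + q) * E1) * t| + |(b - s) * E2 * cl e 2 t| := abs_add_le _ _
      _ = |q + (1 + q) * E1| * t + |(b - s) * E2| * cl e 2 t := by
          rw [abs_mul, abs_mul _ (cl e 2 t), abs_of_nonneg ht0, abs_of_nonneg hc2]
      _ ≤ 4 * q * f + 2 * q / e * f :=
          add_le_add (mul_le_mul h1 hft ht0 (by positivity))
            (mul_le_mul h2 (hc2'.trans hft) hc2 (by positivity))
      _ = (4 * q + 2 * q / e) * f := by ring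
  have h4 : 4 * q + 2 * q / e ≤ 8 / e * q := by
    have h5 : 4 * q + 2 * q / e = (4 * e + 2) * q / e := by
      field_simp
    have h6 : 8 / e * q = 8 * q / e := by ring
    rw [h5, h6]
    apply div_le_div_of_nonneg_right _ he0.le
    nlinarith
  have h8 : (8:ℝ) / e ≤ 200 / e := div_le_div_of_nonneg_right (by norm_num) he0.le
  have h5 : |fm e (nuL e q sg y u1 u2) t - f - s * (cl e 3 t - cl e 2 t)| ≤ 8 / e * q * f := by
    rw [hrem]
    exact h3.trans (mul_le_mul_of_nonneg_right h4 hf0)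
  rw [← hf]
  constructor
  · have h6 : |s * (cl e 3 t - cl e 2 t)| ≤ 192 / e * TT q * f := by
      rw [abs_mul, abs_of_pos hs0]
      have h7 : |cl e 3 t - cl e 2 t| ≤ f := by
        rw [abs_le]
        constructor <;> linarith
      exact mul_le_mul hs1 h7 (abs_nonneg _) (by positivity)
    have h7 : 8 / e * q * f ≤ 8 / e * TT q * f :=
      mul_le_mul_of_nonneg_right (mul_le_mul_of_nonneg_left hP.qT (by positivity)) hf0
    calc |fm e (nuL e q sg y u1 u2) t - f|
        = |(fm e (nuL e q sg y u1 u2) t - f - s * (cl e 3 t - cl e 2 t)) +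
            s * (cl e 3 t - cl e 2 t)| := by rw [sub_add_cancel]
      _ ≤ |fm e (nuL e q sg y u1 u2) t - f - s * (cl e 3 t - cl e 2 t)| +
            |s * (cl e 3 t - cl e 2 t)| := abs_add_le _ _
      _ ≤ 8 / e * TT q * f + 192 / e * TT q * f := add_le_add (h5.trans h7) h6
      _ = 200 / e * TT q * f := by ring
  · exact h5.trans (mul_le_mul_of_nonneg_right (mul_le_mul_of_nonneg_right h8 hq0.le) hf0)

end Pool.Agent.PVD.L.H25
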