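import Pool.Agent.PVD.StmtsG

/-! Squad PVD, rows SYM and FXV: permutations act by isometries; vectors fixed by a stabiliser. -/

set_option autoImplicit false

open MeasureTheory Metric Set Filter Topology

namespace PVD.H25

open PV PV3

/-- an isometry which permutes the coordinates permutes the functionals -/
theorem map_nv (nrm : NRMStmt) {n : ℕ} {φ : E n →ₗᵢ[ℝ] E (n + 1)} (hφ : Emb n φ)
    {σ : Equiv.Perm (Fin (n + 1))} {T : E n ≃ₗᵢ[ℝ] E n}
    (hT : ∀ x i, φ (T x) (σ i) = φ x i) (A : Finset (Fin (n + 1))) :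
    T (nv φ A) = nv φ (A.map σ.toEmbedding) := by
  obtain ⟨h1, -, -⟩ := nrm n φ hφ
  refine ext_inner_left ℝ fun x => ?_
  have h2 : inner ℝ x (T (nv φ A)) = inner ℝ (T (T.symm x)) (T (nv φ A)) := by
    rw [LinearIsometryEquiv.apply_symm_apply]
  rw [h2, LinearIsometryEquiv.inner_map_map, h1, h1, Finset.sum_map]
  refine Finset.sum_congr rfl fun i _ => ?_
  have h3 := hT (T.symm x) i
  rw [LinearIsometryEquiv.apply_symm_apply] at h3
  exact h3.symm

theorem map_wn (nrm : NRMStmt) {n : ℕ} {φ : E n →ₗᵢ[ℝ] E (n + 1)} (hφ : Emb n φ)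
    {σ : Equiv.Perm (Fin (n + 1))} {T : E n ≃ₗᵢ[ℝ] E n}
    (hT : ∀ x i, φ (T x) (σ i) = φ x i) (A : Finset (Fin (n + 1))) :
    T (wn φ A) = wn φ (A.map σ.toEmbedding) := by
  unfold wn
  rw [map_smul, map_nv nrm hφ hT, Finset.card_map]

theorem exists_iso {n : ℕ} {φ : E n →ₗᵢ[ℝ] E (n + 1)} (hφ : Emb n φ)
    (σ : Equiv.Perm (Fin (n + 1))) : ∃ T : E n ≃ₗᵢ[ℝ] E n, ∀ x i, φ (T x) (σ i) = φ x i := by
  obtain ⟨P, hP⟩ : ∃ P : E (n + 1) ≃ₗᵢ[ℝ] E (n + 1), ∀ v i, P v (σ i) = v i := by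
    refine ⟨LinearIsometryEquiv.piLpCongrLeft 2 ℝ ℝ σ, fun v i => ?_⟩
    rw [LinearIsometryEquiv.piLpCongrLeft_apply]
    simp
  have hz : ∀ x, ∃ z, φ z = P (φ x) := by
    intro x
    refine hφ.surj _ ?_
    rw [← Equiv.sum_comp σ]
    calc ∑ i, P (φ x) (σ i) = ∑ i, φ x i := Finset.sum_congr rfl fun i _ => hP _ i
      _ = 0 := hφ.sum x
  choose Z hZ using hz
  have hadd : ∀ x y, Z (x + y) = Z x + Z y := by
    intro x y
    apply φ.injective
    rw [map_add, hZ, hZ, hZ, map_add, map_add]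
  have hsm : ∀ (c : ℝ) x, Z (c • x) = c • Z x := by
    intro c x
    apply φ.injective
    rw [map_smul, hZ, hZ, map_smul, map_smul]
  let L : E n →ₗᵢ[ℝ] E n :=
    { toFun := Z
      map_add' := hadd
      map_smul' := hsm
      norm_map' := fun x => by
        change ‖Z x‖ = ‖x‖
        rw [← φ.norm_map, hZ, LinearIsometryEquiv.norm_map, φ.norm_map] }
  refine ⟨L.toLinearIsometryEquiv rfl, fun x i => ?_⟩
  change φ (Z x) (σ i) = φ x i
  rw [hZ, hP]

theorem sym (nrm : NRMStmt) : SYMStmt := by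
  intro n φ hφ σ
  obtain ⟨T, hT⟩ := exists_iso hφ σ
  exact ⟨T, hT, map_wn nrm hφ hT⟩

theorem fxv (nrm : NRMStmt) : FXVStmt := by
  intro n φ hφ A hA0 hA1 y hy
  classical
  obtain ⟨-, h2, -⟩ := nrm n φ hφ
  obtain ⟨hnu, -, -, -, hnv, -⟩ := h2 A hA0 hA1
  have hsw : ∀ i j, (i ∈ A ↔ j ∈ A) → φ y i = φ y j := by
    intro i j hij
    obtain ⟨T, hT⟩ := exists_iso hφ (Equiv.swap i j)
    have h3 : A.map (Equiv.swap i j).toEmbedding = A := by
      ext k
      rw [Finset.mem_map_equiv, Equiv.symm_swap]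
      by_cases hki : k = i
      · rw [hki, Equiv.swap_apply_left]; exact hij.symm
      · by_cases hkj : k = j
        · rw [hkj, Equiv.swap_apply_right]; exact hij
        · rw [Equiv.swap_apply_of_ne_of_ne hki hkj]
    have h4 := hy _ T hT h3
    have h5 := hT y i
    rw [h4, Equiv.swap_apply_left] at h5
    exact h5.symm
  obtain ⟨i₀, hi₀⟩ := Finset.card_pos.1 hA0
  obtain ⟨j₀, hj₀⟩ : ∃ j, j ∉ A := by
    by_contra hcon
    push Not at hcon
    have h3 : A = Finset.univ := Finset.eq_univ_iff_forall.2 hcon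
    rw [h3, Finset.card_univ, Fintype.card_fin] at hA1
    exact lt_irrefl _ hA1
  obtain ⟨α, hα⟩ : ∃ α, α = φ y i₀ := ⟨_, rfl⟩
  obtain ⟨β, hβ⟩ : ∃ β, β = φ y j₀ := ⟨_, rfl⟩
  have h3 : ∀ i, φ y i = β + (α - β) * (if i ∈ A then 1 else 0) := by
    intro i
    by_cases hi : i ∈ A
    · rw [if_pos hi, hα, hsw i i₀ ⟨fun _ => hi₀, fun _ => hi⟩]; ring
    · rw [if_neg hi, hβ, hsw i j₀ ⟨fun h => absurd h hi, fun h => absurd h hj₀⟩]; ring
  have h4 : ((n : ℝ) + 1) * β + (α - β) * A.card = 0 := by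
    have h5 := hφ.sum y
    rw [Finset.sum_congr rfl fun i _ => h3 i, Finset.sum_add_distrib, ← Finset.mul_sum,
      Finset.sum_const, Finset.card_univ, Fintype.card_fin, Finset.sum_ite_mem,
      Finset.univ_inter, Finset.sum_const, nsmul_eq_mul, nsmul_eq_mul, mul_one] at h5
    push_cast at h5
    exact h5
  refine ⟨(α - β) * nu n A.card, ?_⟩
  unfold wn
  rw [smul_smul, mul_assoc, mul_inv_cancel₀ hnu.ne', mul_one]
  apply φ.injective
  ext i
  rw [map_smul, PiLp.smul_apply, smul_eq_mul, hnv, h3]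
  have hn : ((n : ℝ) + 1) ≠ 0 := by positivity
  field_simp
  linear_combination h4

end PVD.H25
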